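import Mathlib

/-!
# M1 (MP_4d57ea_nt): primes `m ^ 3 + k n ^ 3` with `1 <= n <= m ^ (1 - δ)`: INTERFACE

`θ ^ 3 = k`, the triple `v = (a, b, c)` stands for `a + b θ + c θ ^ 2`.
`Q` is the shape parameter, `T = Q ^ δ`, `Q <= X <= Q ^ 2`.
`SA` is the thin set `A` (coordinate `c = 0`), `SB` the comparison set `B` (thin in `c`).
The chapters prove `ChF`, `ChII`, `ChIA`, `ChIB`, `ChQA`, `ChQB` for every `k` which is not a cube.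
-/

namespace H86.M1

open Finset

/-- The norm of `a + b θ + c θ ^ 2`, `θ ^ 3 = k`. -/
def Nm (k : ℤ) (v : ℤ × ℤ × ℤ) : ℤ :=
  v.1 ^ 3 + k * v.2.1 ^ 3 + k ^ 2 * v.2.2 ^ 3 - 3 * k * v.1 * v.2.1 * v.2.2

/-- The norm as a natural number. -/
def nn (k : ℤ) (v : ℤ × ℤ × ℤ) : ℕ := (Nm k v).toNat

/-- The box `X < a <= 2 X`, `0 < b <= X / T`, `|c| <= X / T ^ 3`. -/
noncomputable def Box (X T : ℝ) : Finset (ℤ × ℤ × ℤ) :=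
  Ioc ⌊X⌋ ⌊2 * X⌋ ×ˢ (Ioc 0 ⌊X / T⌋ ×ˢ Icc (-⌊X / T ^ 3⌋) ⌊X / T ^ 3⌋)

open Classical in
/-- The set `A`: `a = 1` or `-1` mod `M`, `b = 0` mod `M`, `c = 0`. -/
noncomputable def SA (M : ℕ) (X T : ℝ) : Finset (ℤ × ℤ × ℤ) :=
  (Box X T).filter fun v =>
    ((M : ℤ) ∣ v.1 - 1 ∨ (M : ℤ) ∣ v.1 + 1) ∧ (M : ℤ) ∣ v.2.1 ∧ v.2.2 = 0

open Classical in
/-- The set `B`: `a = 1` or `-1` mod `M`, `b = 0` mod `M`, `c = 0` mod `W`. -/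
noncomputable def SB (M W : ℕ) (X T : ℝ) : Finset (ℤ × ℤ × ℤ) :=
  (Box X T).filter fun v =>
    ((M : ℤ) ∣ v.1 - 1 ∨ (M : ℤ) ∣ v.1 + 1) ∧ (M : ℤ) ∣ v.2.1 ∧ (W : ℤ) ∣ v.2.2

/-- The quotient of the sizes of `A` and `B`. -/
noncomputable def kap (W : ℕ) (X T : ℝ) : ℝ := W * T ^ 3 / (2 * X)

/-- `n` has no prime factor below `z`. -/
def Rough (z : ℝ) (n : ℕ) : Prop := 0 < n ∧ ∀ p : ℕ, p.Prime → p ∣ n → z ≤ p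

open Classical in
/-- The Type II sum of the functions `u`, `v` over the set `S`. -/
noncomputable def Bil (k : ℤ) (S : Finset (ℤ × ℤ × ℤ)) (u v : ℕ → ℝ) : ℝ :=
  ∑ w ∈ S.filter (fun w => Squarefree (nn k w)), ∑ m ∈ (nn k w).divisors, u m * v (nn k w / m)

open Classical in
/-- The number of the primes in `S`. -/
noncomputable def Pi (k : ℤ) (S : Finset (ℤ × ℤ × ℤ)) : ℝ :=
  ((S.filter fun w => (nn k w).Prime).card : ℝ)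

/-- CHAPTER (F): primes in the comparison set `B`, at one of three scales. -/
def ChF (k : ℤ) : Prop :=
  ∃ M₁ : ℕ, 0 < M₁ ∧ ∀ M : ℕ, 0 < M → M₁ ∣ M → ∃ c : ℝ, 0 < c ∧
    ∀ W : ℕ, 0 < W → M ∣ W → ∃ δ₀ : ℝ, 0 < δ₀ ∧ ∀ δ : ℝ, 0 < δ → δ ≤ δ₀ →
      ∃ Q₀ : ℝ, 2 ≤ Q₀ ∧ ∀ Q : ℝ, Q₀ ≤ Q → ∃ j : ℕ, j < 3 ∧
        c * (Q ^ (1 + (j : ℝ) / 5)) ^ 2 / (Q ^ δ * Real.log (Q ^ (1 + (j : ℝ) / 5))) ≤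
          kap W (Q ^ (1 + (j : ℝ) / 5)) (Q ^ δ) *
            Pi k (SB M W (Q ^ (1 + (j : ℝ) / 5)) (Q ^ δ))

/-- CHAPTER (II): Type II sums of `A` and of `B` agree up to `ε`. -/
def ChII (k : ℤ) : Prop :=
  ∃ M₁ : ℕ, 0 < M₁ ∧ ∀ M : ℕ, 0 < M → M₁ ∣ M → ∀ τ η ε : ℝ, 0 < τ → 0 < η → 0 < ε →
    ∃ D₀ : ℕ, ∀ W : ℕ, 0 < W → M ∣ W → (∀ q : ℕ, 0 < q → q ≤ D₀ → q ∣ W) →
      ∃ δ₀ : ℝ, 0 < δ₀ ∧ ∀ δ : ℝ, 0 < δ → δ ≤ δ₀ →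
        ∃ Q₀ : ℝ, 2 ≤ Q₀ ∧ ∀ Q X : ℝ, Q₀ ≤ Q → Q ≤ X → X ≤ Q ^ 2 →
          ∀ u v : ℕ → ℝ, (∀ n, |u n| ≤ 1) → (∀ n, |v n| ≤ 1) →
            (∀ n, u n ≠ 0 → Rough (X ^ τ) n ∧ X ^ (1 + η) ≤ n ∧ (n : ℝ) ≤ X ^ (3 / 2 - η)) →
            (∀ n, v n ≠ 0 → Rough (X ^ τ) n) →
              |Bil k (SA M X (Q ^ δ)) u v - kap W X (Q ^ δ) * Bil k (SB M W X (Q ^ δ)) u v| ≤
                ε * (X ^ 2 / (Q ^ δ * Real.log X))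

/-- CHAPTER (I) for `A`: Type I with error `R`, residue classes mod `q`. -/
def ChIA (k : ℤ) : Prop :=
  ∃ C : ℝ, 0 < C ∧ ∀ X T : ℝ, 1 ≤ T → T ≤ X → ∃ R : ℕ → ℕ → ℝ,
    (∀ n r, 0 ≤ R n r) ∧
    (∀ n r q : ℕ, 0 < n → 0 < q → Nat.Coprime q n → ((n : ℤ) ∣ (r : ℤ) ^ 3 - k) →
      Nat.Coprime n (3 * k.natAbs) → ∀ v₁ v₂ : ℤ,
      |(((Ioc ⌊X⌋ ⌊2 * X⌋ ×ˢ Ioc 0 ⌊X / T⌋).filter fun w : ℤ × ℤ =>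
          (q : ℤ) ∣ w.1 - v₁ ∧ (q : ℤ) ∣ w.2 - v₂ ∧ (n : ℤ) ∣ w.1 + r * w.2).card : ℝ) -
        X * (X / T) / ((q : ℝ) ^ 2 * n)| ≤ R n r) ∧
    ∑ n ∈ (Icc 1 ⌊X ^ ((7 : ℝ) / 4)⌋₊).filter (fun n : ℕ => Squarefree n ∧ Nat.Coprime n (3 * k.natAbs)),
      ∑ r ∈ (range n).filter (fun r : ℕ => ((n : ℤ) ∣ (r : ℤ) ^ 3 - k)), R n r ≤
        C * X ^ ((19 : ℝ) / 10)

/-- CHAPTER (I) for `B`. -/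
def ChIB (k : ℤ) : Prop :=
  ∃ C : ℝ, 0 < C ∧ ∀ X T : ℝ, 1 ≤ T → T ^ 3 ≤ X → ∃ R : ℕ → ℕ → ℝ,
    (∀ n r, 0 ≤ R n r) ∧
    (∀ n r q : ℕ, 0 < n → 0 < q → Nat.Coprime q n → ((n : ℤ) ∣ (r : ℤ) ^ 3 - k) →
      Nat.Coprime n (3 * k.natAbs) → ∀ v₁ v₂ v₃ : ℤ,
      |(((Box X T).filter fun w : ℤ × ℤ × ℤ =>
          (q : ℤ) ∣ w.1 - v₁ ∧ (q : ℤ) ∣ w.2.1 - v₂ ∧ (q : ℤ) ∣ w.2.2 - v₃ ∧
            (n : ℤ) ∣ w.1 + r * w.2.1 + r ^ 2 * w.2.2).card : ℝ) -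
        X * (X / T) * (2 * (X / T ^ 3)) / ((q : ℝ) ^ 3 * n)| ≤ R n r) ∧
    ∑ n ∈ (Icc 1 ⌊X ^ ((7 : ℝ) / 4)⌋₊).filter (fun n : ℕ => Squarefree n ∧ Nat.Coprime n (3 * k.natAbs)),
      ∑ r ∈ (range n).filter (fun r : ℕ => ((n : ℤ) ∣ (r : ℤ) ^ 3 - k)), R n r ≤
        C * X ^ ((27 : ℝ) / 10)

open Classical in
/-- Elements of `A` whose norm is divisible by the square of a large prime. -/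
def ChQA (k : ℤ) : Prop :=
  ∀ τ : ℝ, 0 < τ → τ ≤ 1 → ∃ C : ℝ, 0 < C ∧ ∀ X T : ℝ, 1 ≤ T → T ≤ X →
    (((SA 1 X T).filter fun w => ∃ p : ℕ, p.Prime ∧ X ^ τ ≤ p ∧ ((p : ℤ) ^ 2 ∣ Nm k w)).card : ℝ) ≤
      C * X ^ (2 - τ / 2)

open Classical in
/-- Elements of `B` whose norm is divisible by the square of a large prime. -/
def ChQB (k : ℤ) : Prop :=
  ∀ τ : ℝ, 0 < τ → τ ≤ 1 → ∃ C : ℝ, 0 < C ∧ ∀ X T : ℝ, 1 ≤ T → T ^ 3 ≤ X →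
    (((SB 1 1 X T).filter fun w => ∃ p : ℕ, p.Prime ∧ X ^ τ ≤ p ∧ ((p : ℤ) ^ 2 ∣ Nm k w)).card : ℝ) ≤
      C * X ^ (3 - τ / 2)

/-- THE THEOREM, first part: for one `δ > 0` there are infinitely many primes `m ^ 3 + k n ^ 3`
with `1 <= n <= m ^ (1 - δ)`. -/
def MainInf (k : ℤ) : Prop :=
  ∃ δ : ℝ, 0 < δ ∧ {p : ℕ | p.Prime ∧ ∃ m n : ℕ, 1 ≤ n ∧ (n : ℝ) ≤ (m : ℝ) ^ (1 - δ) ∧
    (p : ℤ) = (m : ℤ) ^ 3 + k * (n : ℤ) ^ 3}.Infinite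

open Classical in
/-- THE THEOREM, second part: the right order of magnitude for arbitrarily large `X`. -/
def MainQuant (k : ℤ) : Prop :=
  ∃ δ c : ℝ, 0 < δ ∧ 0 < c ∧ ∀ Y : ℝ, ∃ X : ℝ, Y ≤ X ∧
    c * (X ^ (2 - δ) / Real.log X) ≤
      (((Ioc ⌊X⌋₊ ⌊2 * X⌋₊ ×ˢ Icc 1 ⌊X ^ (1 - δ)⌋₊).filter fun w : ℕ × ℕ =>
        ∃ p : ℕ, p.Prime ∧ (p : ℤ) = (w.1 : ℤ) ^ 3 + k * (w.2 : ℤ) ^ 3).card : ℝ)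

end H86.M1
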